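import Mathlib
import Pool.Agent.H194R3.CM.Defs

/-!
# Ordinary Weil numbers, individually flipped embeddings, classes divisible by Tate classes
-/

namespace Pool.Agent.H204R3.GT

open NumberField

/-- The Weil number `π` (with `π * conj π = q = p ^ a`) is ordinary: all slopes are `0` or `1`. -/
def IsOrdinary (p a : ℕ) [Fact p.Prime] {F : Type*} [Field F] (π : F) : Prop :=
  ∀ τ : F →+* PadicAlgCl p, ‖τ π‖ = 1 ∨ ‖τ π‖ = ‖(p : PadicAlgCl p) ^ a‖

/-- Every embedding `x` of a member of the family of fields is *individually flipped*: an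
automorphism (endomorphism) of the field of complex numbers conjugates `x` and fixes all embeddings
of members of the family which are different from `x` and its complex conjugate. -/
def IndividuallyFlipped {ι : Type*} (F : ι → Type*) [∀ i, Field (F i)] : Prop :=
  ∀ x : Σ i, (F i →+* ℂ), ∃ τ : ℂ →+* ℂ, H194R3.CM.move τ x = H194R3.CM.bar x ∧
    ∀ y : Σ i, (F i →+* ℂ), y ≠ x → y ≠ H194R3.CM.bar x → H194R3.CM.move τ y = y

/-- `B` is a Tate class in `H^2(1)`: a bilinear form with `B(Fr v, Fr w) = q B(v, w)`. -/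
def IsTateBilinear {K V : Type*} [Field K] [AddCommGroup V] [Module K V] (Fr : V →ₗ[K] V) (q : ℕ)
    (B : V →ₗ[K] V →ₗ[K] K) : Prop :=
  ∀ v w, B (Fr v) (Fr w) = q * B v w

/-- The multilinear form `φ` in `n` variables is the product of `ν` Tate classes of degree two and of
a multilinear form `g` in the remaining `m = n - 2 ν` variables; the variables are distributed in some
way. -/
def IsDivisible {K V : Type*} [Field K] [AddCommGroup V] [Module K V] (Fr : V →ₗ[K] V) (q ν : ℕ)
    {n : ℕ} (φ : MultilinearMap K (fun _ : Fin n => V) K) : Prop :=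
  ∃ (m : ℕ) (e : (Fin ν × Fin 2) ⊕ Fin m ≃ Fin n) (B : Fin ν → (V →ₗ[K] V →ₗ[K] K))
    (g : MultilinearMap K (fun _ : Fin m => V) K), (∀ l, IsTateBilinear Fr q (B l)) ∧
    ∀ v, φ v = (∏ l, B l (v (e (Sum.inl (l, 0)))) (v (e (Sum.inl (l, 1))))) *
      g (fun k => v (e (Sum.inr k)))

end Pool.Agent.H204R3.GT
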