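import Mathlib
import Pool.Agent.H194R3.CM.Flip
import Pool.Agent.H204R3.GP.Neat
import Pool.Agent.H204R3.GT.Core
import Pool.Agent.H204R3.GT.Defs

/-!
# Frobenius eigenforms with eigenvalue divisible by `q ^ ν`
-/

set_option linter.unusedSectionVars false
set_option linter.unusedVariables false

namespace Pool.Agent.H204R3.GT

open NumberField Module Pool.Agent.H204R3.CM Pool.Agent.H204R3.SP Pool.Agent.H204R3.GP
  Pool.Agent.H925R2

noncomputable section

theorem norm_le_one_of_isIntegral {p : ℕ} [Fact p.Prime] {z : PadicAlgCl p}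
    (hz : IsIntegral ℤ z) : ‖z‖ ≤ 1 := by
  have h1 := (Valuation.integer.integers
    (Valued.v : Valuation (PadicAlgCl p) NNReal)).mem_of_integral
    (hz.tower_top (A := (Valued.v : Valuation (PadicAlgCl p) NNReal).integer))
  rw [← PadicAlgCl.valuation_coe p z]
  exact_mod_cast h1

/-- Individual flips in the Galois group. -/
theorem flips_gal {ι : Type*} {F : ι → Type*} [∀ i, Field (F i)] [∀ i, NumberField (F i)]
    [∀ i, IsCMField (F i)] {L : Type*} [Field L] [NumberField L] [IsGalois ℚ L] (j : L →+* ℂ)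
    (hflip : IndividuallyFlipped F) (x : Σ i, (F i →+* L)) :
    ∃ g : L ≃ₐ[ℚ] L, g • x = bar x ∧ ∀ y, y ≠ x → y ≠ bar x → g • y = y := by
  let J : (Σ i, (F i →+* L)) → Σ i, (F i →+* ℂ) := fun x => ⟨x.1, j.comp x.2⟩
  have hJ : Function.Injective J := by
    rintro ⟨a, φ⟩ ⟨b, ψ⟩ h
    simp only [J, Sigma.mk.injEq] at h
    obtain ⟨rfl, h⟩ := h
    rw [H194R3.CM.comp_injective j (eq_of_heq h)]
  have hJinv : ∀ x : Σ i, (F i →+* L), J (bar x) = H194R3.CM.bar (J x) := by
    rintro ⟨a, φ⟩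
    simp only [J, bar, comp_cbar, H194R3.CM.bar]
  obtain ⟨τ, hτ1, hτ2⟩ := hflip (J x)
  obtain ⟨σ, hσ⟩ := H194R3.CM.exists_restrict j τ
  have hJσ : ∀ z : Σ i, (F i →+* L), J (σ • z) = H194R3.CM.move τ (J z) := by
    rintro ⟨a, φ⟩
    exact congrArg (Sigma.mk a) (H194R3.CM.comp_smul_of_restrict j τ σ hσ φ)
  refine ⟨σ, hJ (by rw [hJσ, hτ1, hJinv]), fun y h1 h2 => hJ ?_⟩
  rw [hJσ]
  exact hτ2 _ (fun h => h1 (hJ h)) (fun h => h2 (hJ (by rw [h, hJinv])))

/-- The arithmetic part: a product of conjugates of ordinary Weil numbers which is divisible by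
`q ^ ν` contains `ν` conjugate pairs. -/
theorem pairs_of_integral {p : ℕ} [Fact p.Prime] {a : ℕ} (ha : 0 < a) {ι : Type*} [Fintype ι]
    {F : ι → Type*} [∀ i, Field (F i)] [∀ i, NumberField (F i)] [∀ i, IsCMField (F i)]
    {π : ∀ i, F i} (hw : ∀ i, π i * IsCMField.complexConj (F i) (π i) = (p : F i) ^ a)
    (hord : ∀ i, IsOrdinary p a (π i)) (hflip : IndividuallyFlipped F)
    {L : Type*} [Field L] [NumberField L] [IsGalois ℚ L] (j : L →+* ℂ)
    (jp : L →+* PadicAlgCl p) {κ : Type*} [Fintype κ] [DecidableEq κ]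
    (y : κ → Σ i, (F i →+* L)) (ν : ℕ) (c : L) (hc : IsIntegral ℤ c)
    (hprod : ∏ k, val π (y k) = ((p : L) ^ a) ^ ν * c) :
    ∃ e : Fin ν × Fin 2 ↪ κ, ∀ l, y (e (l, 1)) = bar (y (e (l, 0))) := by
  classical
  have h0 := norm_q_pos p a
  have hlt := norm_q_lt p ha
  set Q : ℝ := ‖(p : PadicAlgCl p) ^ a‖ with hQ
  let w : (Σ i, (F i →+* L)) → ℕ := fun x => if ‖jp (val π x)‖ = 1 then 0 else 1
  have hwQ : ∀ x : Σ i, (F i →+* L), ‖jp (val π x)‖ = Q ^ w x := by
    intro x
    by_cases h1 : ‖jp (val π x)‖ = 1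
    · simp only [w]
      rw [if_pos h1, pow_zero, h1]
    · simp only [w]
      rw [if_neg h1, pow_one]
      exact (hord x.1 (jp.comp x.2)).resolve_left h1
  have hww : ∀ x : Σ i, (F i →+* L), w x + w (bar x) = 1 := by
    intro x
    have h1 := congrArg (fun z => ‖jp z‖) (val_bar (L := L) hw x)
    simp only [map_mul, norm_mul, map_pow, map_natCast] at h1
    rw [hwQ, hwQ, ← pow_add] at h1
    have h2 : Q ^ (w x + w (bar x)) = Q ^ 1 := by
      rw [pow_one, h1, hQ, norm_pow]
    exact (pow_right_injective₀ h0 hlt.ne) h2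
  refine exists_pairs (G := L ≃ₐ[ℚ] L) bar_bar bar_ne (fun g x => rfl) (flips_gal j hflip) w hww y
    ν ?_
  intro g
  have h1 := congrArg (fun z => ‖jp (g z)‖) hprod
  simp only [map_prod, map_mul, map_pow, map_natCast, norm_mul, norm_prod] at h1
  have h2 : ∀ k, jp (g (val π (y k))) = jp (val π (g • y k)) := fun k => rfl
  simp only [h2, hwQ] at h1
  rw [Finset.prod_pow_eq_pow_sum] at h1
  have h3 : ‖jp (g c)‖ ≤ 1 := by
    apply norm_le_one_of_isIntegral
    have h4 : IsIntegral ℤ ((jp.comp (g : L →+* L)).toIntAlgHom c) :=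
      hc.map ((jp.comp (g : L →+* L)).toIntAlgHom)
    exact h4
  have h4 : Q ^ (∑ k, w (g • y k)) ≤ Q ^ ν := by
    rw [h1]
    have h5 : ‖((p : PadicAlgCl p) ^ a) ^ ν‖ = Q ^ ν := by rw [norm_pow, hQ]
    rw [h5]
    exact mul_le_of_le_one_right (pow_nonneg h0.le _) h3
  exact (pow_le_pow_iff_right_of_lt_one₀ h0 hlt).1 h4

section

variable {K : Type*} [Field K] {V : Type*} [AddCommGroup V] [Module K V] {R : Type*} [Fintype R]
  [DecidableEq R] (b : Basis R K V)

/-- The monomials. -/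
def mono {κ : Type*} [Fintype κ] (I : κ → R) : MultilinearMap K (fun _ : κ => V) K :=
  (MultilinearMap.mkPiAlgebra K κ K).compLinearMap (fun l => b.coord (I l))

theorem mono_apply {κ : Type*} [Fintype κ] (I : κ → R) (v : κ → V) :
    mono b I v = ∏ l, b.coord (I l) (v l) := rfl

theorem expand {κ : Type*} [Fintype κ] [DecidableEq κ] (φ : MultilinearMap K (fun _ : κ => V) K) :
    φ = ∑ I : κ → R, φ (fun l => b (I l)) • mono b I := by
  refine Basis.ext_multilinear (fun _ => b) fun J => ?_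
  rw [sum_apply, Finset.sum_eq_single J]
  · rw [_root_.smul_apply, mono_apply, Finset.prod_eq_one, smul_eq_mul, mul_one]
    intro l _
    rw [Basis.coord_apply, Basis.repr_self, Finsupp.single_eq_same]
  · intro I _ hI
    obtain ⟨l, hl⟩ := Function.ne_iff.1 hI
    rw [_root_.smul_apply, mono_apply, Finset.prod_eq_zero (Finset.mem_univ l), smul_zero]
    rw [Basis.coord_apply, Basis.repr_self, Finsupp.single_eq_of_ne hl]
  · intro h
    exact absurd (Finset.mem_univ _) h

theorem coord_eigen (Fr : V →ₗ[K] V) (μ : R → K) (hb : ∀ s, Fr (b s) = μ s • b s) (s : R) (v : V) :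
    b.coord s (Fr v) = μ s * b.coord s v := by
  have h1 : (b.coord s).comp Fr = μ s • b.coord s := by
    refine b.ext fun r => ?_
    rw [LinearMap.comp_apply, hb, map_smul, LinearMap.smul_apply, smul_eq_mul, smul_eq_mul,
      Basis.coord_apply, Basis.repr_self, Finsupp.single_apply]
    split_ifs with h
    · rw [h]
    · rw [mul_zero, mul_zero]
  exact LinearMap.congr_fun h1 v

theorem mono_eigen (Fr : V →ₗ[K] V) (μ : R → K) (hb : ∀ s, Fr (b s) = μ s • b s) {κ : Type*}
    [Fintype κ] (I : κ → R) :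
    (mono b I).compLinearMap (fun _ => Fr) = (∏ l, μ (I l)) • mono b I := by
  ext v
  rw [_root_.smul_apply, mono_apply, MultilinearMap.compLinearMap_apply, mono_apply, smul_eq_mul,
    ← Finset.prod_mul_distrib]
  exact Finset.prod_congr rfl fun l _ => coord_eigen b Fr μ hb _ _

/-- A monomial which contains `ν` pairs is divisible. -/
theorem mono_divisible (Fr : V →ₗ[K] V) (μ : R → K) (hb : ∀ s, Fr (b s) = μ s • b s) (q ν : ℕ)
    {n : ℕ} (I : Fin n → R) (e : Fin ν × Fin 2 ↪ Fin n)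
    (he : ∀ l, μ (I (e (l, 0))) * μ (I (e (l, 1))) = q) : IsDivisible Fr q ν (mono b I) := by
  classical
  have hcoord : ∀ s v, b.coord s (Fr v) = μ s * b.coord s v := by
    intro s v
    have h1 : (b.coord s).comp Fr = μ s • b.coord s := by
      refine b.ext fun r => ?_
      rw [LinearMap.comp_apply, hb, map_smul, LinearMap.smul_apply, smul_eq_mul, smul_eq_mul,
        Basis.coord_apply, Basis.repr_self, Finsupp.single_apply]
      split_ifs with h
      · rw [h]
      · rw [mul_zero, mul_zero]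
    exact LinearMap.congr_fun h1 v
  let S : Set (Fin n) := Set.range e
  let E : (Fin ν × Fin 2) ⊕ Fin (Fintype.card ↥Sᶜ) ≃ Fin n :=
    (Equiv.sumCongr (Equiv.ofInjective e e.injective) (Fintype.equivFin ↥Sᶜ).symm).trans
      (Equiv.Set.sumCompl S)
  have hE : ∀ z, E (Sum.inl z) = e z := fun z => rfl
  refine ⟨_, E, fun l => (b.coord (I (e (l, 0)))).smulRight (b.coord (I (e (l, 1)))),
    mono b (fun k => I (E (Sum.inr k))), ?_, ?_⟩
  · intro l v w
    rw [LinearMap.smulRight_apply, LinearMap.smulRight_apply, LinearMap.smul_apply,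
      LinearMap.smul_apply, smul_eq_mul, smul_eq_mul, hcoord, hcoord, ← he l]
    ring
  · intro v
    rw [mono_apply, mono_apply, ← Equiv.prod_comp E, Fintype.prod_sum_type]
    congr 1
    rw [Fintype.prod_prod_type]
    refine Finset.prod_congr rfl fun l _ => ?_
    rw [Fin.prod_univ_two, hE, hE, LinearMap.smulRight_apply, LinearMap.smul_apply, smul_eq_mul]

end

/-- The main theorem: a Frobenius eigenform whose eigenvalue is divisible by `q ^ ν` is a combination
of forms divisible by `ν` Tate classes. -/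
theorem mem_span_divisible {p : ℕ} [Fact p.Prime] {a : ℕ} (ha : 0 < a) {ι : Type*} [Fintype ι]
    {F : ι → Type*} [∀ i, Field (F i)] [∀ i, NumberField (F i)] [∀ i, IsCMField (F i)]
    {π : ∀ i, F i} (hw : ∀ i, π i * IsCMField.complexConj (F i) (π i) = (p : F i) ^ a)
    (hord : ∀ i, IsOrdinary p a (π i)) (hflip : IndividuallyFlipped F)
    {L : Type*} [Field L] [NumberField L] [IsGalois ℚ L] (j : L →+* ℂ)
    (h : ∀ i, ∀ ψ : F i →+* ℂ, ∃ φ : F i →+* L, j.comp φ = ψ) (jp : L →+* PadicAlgCl p)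
    {K : Type*} [Field K] [CharZero K] [IsAlgClosed K] (jK : L →+* K)
    {V : Type*} [AddCommGroup V] [Module K V] {R : Type*} [Fintype R] (b : Basis R K V)
    (x : R → Σ i, (F i →+* K)) (Fr : V →ₗ[K] V)
    (hb : ∀ s, Fr (b s) = (x s).2 (π (x s).1) • b s)
    {n : ℕ} (ν : ℕ) (φ : MultilinearMap K (fun _ : Fin n => V) K) (c : K) (hc : IsIntegral ℤ c)
    (hφ : ∀ v, φ (fun l => Fr (v l)) = ((p ^ a : ℕ) : K) ^ ν * c * φ v) :
    φ ∈ Submodule.span K {ψ | IsDivisible Fr (p ^ a) ν ψ} := by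
  classical
  have hlift : ∀ s, ∃ y : Σ i, (F i →+* L), (⟨y.1, jK.comp y.2⟩ : Σ i, (F i →+* K)) = x s := by
    intro s
    obtain ⟨φ', hφ'⟩ := exists_factor j (h (x s).1) jK (x s).2
    exact ⟨⟨(x s).1, φ'⟩, by rw [hφ']⟩
  choose y hy using hlift
  have hb' : ∀ s, Fr (b s) = jK (val π (y s)) • b s := by
    intro s
    rw [hb, ← hy]
    rfl
  rw [expand b φ]
  refine Submodule.sum_mem _ fun I _ => ?_
  by_cases hI : φ (fun l => b (I l)) = 0
  · rw [hI, zero_smul]
    exact Submodule.zero_mem _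
  apply Submodule.smul_mem
  apply Submodule.subset_span
  have h1 := hφ (fun l => b (I l))
  simp only [hb'] at h1
  rw [MultilinearMap.map_smul_univ, smul_eq_mul] at h1
  have h2 := mul_right_cancel₀ hI h1
  rw [← map_prod] at h2
  have hq : ((p : L) ^ a) ≠ 0 := pow_ne_zero a (Nat.cast_ne_zero.2 (Fact.out : p.Prime).ne_zero)
  obtain ⟨c', hc'⟩ : ∃ c', c' = (∏ l, val π (y (I l))) / ((p : L) ^ a) ^ ν := ⟨_, rfl⟩
  have hprod : ∏ l, val π (y (I l)) = ((p : L) ^ a) ^ ν * c' := by
    rw [hc']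
    field_simp
  have hcc : jK c' = c := by
    rw [hprod, map_mul, map_pow, map_pow, map_natCast] at h2
    push_cast at h2
    have h3 : ((p : K) ^ a) ^ ν ≠ 0 := pow_ne_zero ν
      (pow_ne_zero a (Nat.cast_ne_zero.2 (Fact.out : p.Prime).ne_zero))
    exact mul_left_cancel₀ h3 h2
  have hint : IsIntegral ℤ c' := by
    have h3 : IsIntegral ℤ (jK.toIntAlgHom c') := by
      change IsIntegral ℤ (jK c')
      rw [hcc]
      exact hc
    exact (isIntegral_algHom_iff jK.toIntAlgHom jK.injective).1 h3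
  obtain ⟨e, he⟩ := pairs_of_integral ha hw hord hflip j jp (fun l => y (I l)) ν c' hint hprod
  refine mono_divisible b Fr (fun s => jK (val π (y s))) hb' (p ^ a) ν I e fun l => ?_
  rw [← map_mul, he l, val_bar hw]
  push_cast
  rw [map_pow, map_natCast]

end

end Pool.Agent.H204R3.GT
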