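import Mathlib
import Pool.Agent.H204R3.GT.Main
import Pool.Agent.H204R3.GH.Reflex

/-!
# The generalized Tate conjecture in terms of the degree of the product of the unit roots
-/

set_option linter.unusedSectionVars false
set_option linter.unusedVariables false

namespace Pool.Agent.H204R3.GT

open NumberField Module Equiv Pool.Agent.H204R3.CM Pool.Agent.H204R3.SP Pool.Agent.H204R3.GP
  Pool.Agent.H925R2
open scoped Pointwise

noncomputable section

theorem trans_of_finrank {ι : Type*} [Fintype ι] {E : ι → Type*} [∀ i, Field (E i)]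
    [∀ i, NumberField (E i)] [∀ i, IsCMField (E i)]
    {L : Type*} [Field L] [NumberField L] [IsGalois ℚ L] [DecidableEq (Σ i, (E i →+* L))]
    (j : L →+* ℂ) (h : ∀ i, ∀ ψ : E i →+* ℂ, ∃ φ : E i →+* L, j.comp φ = ψ)
    {H₀ : Finset (Σ i, (E i →+* L))} (hH₀ : IsHalf bar H₀) (R : IntermediateField ℚ L)
    (hR : R ≤ IntermediateField.fixedField (MulAction.stabilizer (L ≃ₐ[ℚ] L) H₀))
    (hdeg : 2 ^ ((∑ i, finrank ℚ (E i)) / 2) ≤ finrank ℚ R) :
    ∀ H : Finset (Σ i, (E i →+* L)), IsHalf bar H →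
      ∃ g : L ≃ₐ[ℚ] L, ∀ x ∈ H, g • x ∈ H₀ := by
  classical
  let S : Subgroup (L ≃ₐ[ℚ] L) := MulAction.stabilizer (L ≃ₐ[ℚ] L) H₀
  have hfin : finrank ℚ R ≤ finrank ℚ (IntermediateField.fixedField S) :=
    LinearMap.finrank_le_finrank_of_injective
      (f := (IntermediateField.inclusion hR).toLinearMap) (IntermediateField.inclusion hR).injective
  have horb : finrank ℚ (IntermediateField.fixedField S) =
      (MulAction.orbit (L ≃ₐ[ℚ] L) H₀).ncard := by
    have h1 := Module.finrank_mul_finrank ℚ (IntermediateField.fixedField S) L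
    rw [IntermediateField.finrank_fixedField_eq_card, ← IsGalois.card_aut_eq_finrank ℚ L] at h1
    have h2 := MulAction.index_stabilizer (L ≃ₐ[ℚ] L) H₀
    have h3 := Subgroup.index_mul_card S
    rw [← h3] at h1
    have h4 := mul_right_cancel₀ (Nat.card_pos.ne') h1
    rw [h4]
    exact h2
  let 𝓗 : Finset (Finset (Σ i, (E i →+* L))) := Finset.univ.filter (fun H => IsHalf bar H)
  have h𝓗 : 𝓗.card ≤ 2 ^ ((∑ i, finrank ℚ (E i)) / 2) := by
    have h1 := GH.card_half_le bar_bar hH₀ 𝓗 (fun H hH => (Finset.mem_filter.1 hH).2)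
    have h2 := hH₀.card bar_bar
    rw [Fintype.card_sigma, Finset.sum_congr rfl (fun i _ => card_emb j (h i))] at h2
    rw [h2, Nat.mul_div_cancel_left _ (by norm_num : 0 < 2)]
    exact h1
  have hsub : (MulAction.orbit (L ≃ₐ[ℚ] L) H₀).toFinset ⊆ 𝓗 := by
    intro H hH
    rw [Set.mem_toFinset] at hH
    obtain ⟨g, rfl⟩ := hH
    refine Finset.mem_filter.2 ⟨Finset.mem_univ _, fun x => ?_⟩
    change x ∈ g • H₀ ↔ bar x ∉ g • H₀
    rw [← Finset.inv_smul_mem_iff, ← Finset.inv_smul_mem_iff]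
    exact hH₀ (g⁻¹ • x)
  have heq : (MulAction.orbit (L ≃ₐ[ℚ] L) H₀).toFinset = 𝓗 := by
    refine Finset.eq_of_subset_of_card_le hsub ?_
    rw [← Set.ncard_eq_toFinset_card', ← horb]
    omega
  intro H hH
  have h1 : H ∈ (MulAction.orbit (L ≃ₐ[ℚ] L) H₀).toFinset := by
    rw [heq]
    exact Finset.mem_filter.2 ⟨Finset.mem_univ _, hH⟩
  rw [Set.mem_toFinset] at h1
  obtain ⟨g, hg⟩ := h1
  refine ⟨g⁻¹, fun x hx => ?_⟩
  have h2 : g • H₀ = H := hg
  rwa [← h2, ← Finset.inv_smul_mem_iff] at hx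

section

variable {p : ℕ} [Fact p.Prime] {a : ℕ} (ha : 0 < a) {ι : Type*} [Fintype ι]
    {F : ι → Type*} [∀ i, Field (F i)] [∀ i, NumberField (F i)] [∀ i, IsCMField (F i)]
    {π : ∀ i, F i} (hw : ∀ i, π i * IsCMField.complexConj (F i) (π i) = (p : F i) ^ a)
    (hord : ∀ i, IsOrdinary p a (π i))
    {L : Type*} [Field L] [NumberField L] [IsGalois ℚ L] (j : L →+* ℂ)
    (jp : L →+* PadicAlgCl p)

include ha hw hord in
/-- The embeddings which map the Weil numbers to units form a half system. -/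
theorem weights (x : Σ i, (F i →+* L)) :
    (if ‖jp (val π x)‖ = 1 then 0 else 1) + (if ‖jp (val π (bar x))‖ = 1 then 0 else 1) = 1 ∧
      ‖jp (val π x)‖ = ‖(p : PadicAlgCl p) ^ a‖ ^ (if ‖jp (val π x)‖ = 1 then 0 else 1) := by
  classical
  have h0 := norm_q_pos p a
  have hlt := norm_q_lt p ha
  set Q : ℝ := ‖(p : PadicAlgCl p) ^ a‖ with hQ
  have hwQ : ∀ x : Σ i, (F i →+* L), ‖jp (val π x)‖ = Q ^ (if ‖jp (val π x)‖ = 1 then 0 else 1) := by
    intro x
    by_cases h1 : ‖jp (val π x)‖ = 1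
    · rw [if_pos h1, pow_zero, h1]
    · rw [if_neg h1, pow_one]
      exact (hord x.1 (jp.comp x.2)).resolve_left h1
  refine ⟨?_, hwQ x⟩
  have h1 := congrArg (fun z => ‖jp z‖) (val_bar (L := L) hw x)
  simp only [map_mul, norm_mul, map_pow, map_natCast] at h1
  rw [hwQ x, hwQ (bar x), ← pow_add] at h1
  have h2 : Q ^ ((if ‖jp (val π x)‖ = 1 then 0 else 1) +
      (if ‖jp (val π (bar x))‖ = 1 then 0 else 1)) = Q ^ 1 := by
    rw [pow_one, h1, hQ, norm_pow]
  exact (pow_right_injective₀ h0 hlt.ne) h2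

include ha hw hord in
/-- The arithmetic part. -/
theorem pairs_of_trans
    (htrans : ∀ H : Finset (Σ i, (F i →+* L)), IsHalf bar H →
      ∃ g : L ≃ₐ[ℚ] L, ∀ x ∈ H, ‖jp (val π (g • x))‖ = 1)
    {κ : Type*} [Fintype κ] [DecidableEq κ]
    (y : κ → Σ i, (F i →+* L)) (ν : ℕ) (c : L) (hc : IsIntegral ℤ c)
    (hprod : ∏ k, val π (y k) = ((p : L) ^ a) ^ ν * c) :
    ∃ e : Fin ν × Fin 2 ↪ κ, ∀ l, y (e (l, 1)) = bar (y (e (l, 0))) := by
  classical
  have h0 := norm_q_pos p a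
  have hlt := norm_q_lt p ha
  set Q : ℝ := ‖(p : PadicAlgCl p) ^ a‖ with hQ
  let w : (Σ i, (F i →+* L)) → ℕ := fun x => if ‖jp (val π x)‖ = 1 then 0 else 1
  have hwQ : ∀ x : Σ i, (F i →+* L), ‖jp (val π x)‖ = Q ^ w x := fun x =>
    (weights ha hw hord jp x).2
  have hww : ∀ x : Σ i, (F i →+* L), w x + w (bar x) = 1 := fun x =>
    (weights ha hw hord jp x).1
  refine GH.exists_pairs (G := L ≃ₐ[ℚ] L) bar_bar bar_ne (fun g x => rfl) w hww
    (fun H hH => by
      obtain ⟨g, hg⟩ := htrans H hH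
      exact ⟨g, fun x hx => if_pos (hg x hx)⟩) y ν ?_
  intro g
  have h1 := congrArg (fun z => ‖jp (g z)‖) hprod
  simp only [map_prod, map_mul, map_pow, map_natCast, norm_mul, norm_prod] at h1
  have h2 : ∀ k, jp (g (val π (y k))) = jp (val π (g • y k)) := fun k => rfl
  simp only [h2, hwQ] at h1
  rw [Finset.prod_pow_eq_pow_sum] at h1
  have h3 : ‖jp (g c)‖ ≤ 1 := by
    apply norm_le_one_of_isIntegral
    have h4 : IsIntegral ℤ ((jp.comp (g : L →+* L)).toIntAlgHom c) :=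
      hc.map ((jp.comp (g : L →+* L)).toIntAlgHom)
    exact h4
  have h4 : Q ^ (∑ k, w (g • y k)) ≤ Q ^ ν := by
    rw [h1]
    have h5 : ‖((p : PadicAlgCl p) ^ a) ^ ν‖ = Q ^ ν := by rw [norm_pow, hQ]
    rw [h5]
    exact mul_le_of_le_one_right (pow_nonneg h0.le _) h3
  exact (pow_le_pow_iff_right_of_lt_one₀ h0 hlt).1 h4

end

/-- The product of the `p`-adic units among the conjugates of the Weil numbers `π i`. -/
def unitProduct (p : ℕ) [Fact p.Prime] {ι : Type*} [Fintype ι] {F : ι → Type*} [∀ i, Field (F i)]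
    (π : ∀ i, F i) : PadicAlgCl p :=
  ∏ i, ∏ᶠ τ ∈ {τ : F i →+* PadicAlgCl p | ‖τ (π i)‖ = 1}, τ (π i)

section

variable {p : ℕ} [Fact p.Prime] {a : ℕ} (ha : 0 < a) {ι : Type*} [Fintype ι]
    {F : ι → Type*} [∀ i, Field (F i)] [∀ i, NumberField (F i)] [∀ i, IsCMField (F i)]
    {π : ∀ i, F i} (hw : ∀ i, π i * IsCMField.complexConj (F i) (π i) = (p : F i) ^ a)
    (hord : ∀ i, IsOrdinary p a (π i))
    {L : Type*} [Field L] [NumberField L] [IsGalois ℚ L] (j : L →+* ℂ)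
    (jp : L →+* PadicAlgCl p)

include ha hw hord in
theorem trans_of_unitProduct (h : ∀ i, ∀ ψ : F i →+* ℂ, ∃ φ : F i →+* L, j.comp φ = ψ)
    (hdeg : 2 ^ ((∑ i, finrank ℚ (F i)) / 2) ≤ (minpoly ℚ (unitProduct p π)).natDegree) :
    ∀ H : Finset (Σ i, (F i →+* L)), IsHalf bar H →
      ∃ g : L ≃ₐ[ℚ] L, ∀ x ∈ H, ‖jp (val π (g • x))‖ = 1 := by
  classical
  let H₀ : Finset (Σ i, (F i →+* L)) := Finset.univ.filter (fun x => ‖jp (val π x)‖ = 1)
  have hmem : ∀ x, x ∈ H₀ ↔ ‖jp (val π x)‖ = 1 := by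
    intro x
    simp only [H₀, Finset.mem_filter, Finset.mem_univ, true_and]
  have hH₀ : IsHalf bar H₀ := by
    intro x
    rw [hmem, hmem]
    have h1 := (weights ha hw hord jp x).1
    split_ifs at h1 with h2 h3 h3
    · exact absurd h1 (by norm_num)
    · exact ⟨fun _ => h3, fun _ => h2⟩
    · exact ⟨fun h4 => absurd h4 h2, fun h4 => absurd h3 h4⟩
    · exact absurd h1 (by norm_num)
  let P : L := ∏ x ∈ H₀, val π x
  have hP : jp P = unitProduct p π := by
    have h1 : jp P = ∏ i, ∏ φ : F i →+* L,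
        (if ‖jp (φ (π i))‖ = 1 then jp (φ (π i)) else 1) := by
      simp only [P]
      rw [map_prod, Finset.prod_filter, Fintype.prod_sigma]
      rfl
    rw [h1]
    unfold unitProduct
    refine Finset.prod_congr rfl fun i _ => ?_
    rw [finprod_mem_def, finprod_eq_prod_of_fintype]
    let e : (F i →+* L) ≃ (F i →+* PadicAlgCl p) := Equiv.ofBijective (fun φ => jp.comp φ)
      ⟨fun φ φ' hh => RingHom.ext fun x => jp.injective (RingHom.congr_fun hh x),
        fun ψ => exists_factor j (h i) jp ψ⟩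
    refine Fintype.prod_equiv e _ _ fun φ => ?_
    have h2 : e φ = jp.comp φ := rfl
    rw [h2, Set.mulIndicator_apply]
    rfl
  have hmin : (minpoly ℚ (unitProduct p π)).natDegree = (minpoly ℚ P).natDegree := by
    rw [← hP]
    exact congrArg Polynomial.natDegree
      (minpoly.algHom_eq (RingHom.equivRatAlgHom L (PadicAlgCl p) jp) jp.injective P)
  have hPint : IsIntegral ℚ P := Algebra.IsIntegral.isIntegral P
  have hfin := IntermediateField.adjoin.finrank hPint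
  have htr := trans_of_finrank (E := F) j h hH₀ (IntermediateField.adjoin ℚ {P}) (by
    refine IntermediateField.adjoin_simple_le_iff.2 ?_
    rintro ⟨σ, hσ⟩
    change σ P = P
    have h2 : σ • H₀ = H₀ := hσ
    simp only [P]
    rw [map_prod]
    conv_rhs => rw [← h2]
    refine Finset.prod_bij (fun x _ => σ • x) (fun x hx => Finset.smul_mem_smul_finset hx)
      (fun x _ y _ hh => MulAction.injective σ hh) (fun y hy => ?_) (fun x _ => rfl)
    obtain ⟨x, hx, rfl⟩ := Finset.mem_smul_finset.1 hy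
    exact ⟨x, hx, rfl⟩) (by
    rw [hfin, ← hmin]
    exact hdeg)
  intro H hH
  obtain ⟨g, hg⟩ := htr H hH
  exact ⟨g, fun x hx => (hmem _).1 (hg x hx)⟩

include ha hw hord in
/-- The main theorem: a Frobenius eigenform whose eigenvalue is divisible by `q ^ ν` is a combination
of forms divisible by `ν` Tate classes. -/
theorem mem_span_divisible'
    (htrans : ∀ H : Finset (Σ i, (F i →+* L)), IsHalf bar H →
      ∃ g : L ≃ₐ[ℚ] L, ∀ x ∈ H, ‖jp (val π (g • x))‖ = 1)
    (h : ∀ i, ∀ ψ : F i →+* ℂ, ∃ φ : F i →+* L, j.comp φ = ψ)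
    {K : Type*} [Field K] [CharZero K] [IsAlgClosed K] (jK : L →+* K)
    {V : Type*} [AddCommGroup V] [Module K V] {R : Type*} [Fintype R] (b : Basis R K V)
    (x : R → Σ i, (F i →+* K)) (Fr : V →ₗ[K] V)
    (hb : ∀ s, Fr (b s) = (x s).2 (π (x s).1) • b s)
    {n : ℕ} (ν : ℕ) (φ : MultilinearMap K (fun _ : Fin n => V) K) (c : K) (hc : IsIntegral ℤ c)
    (hφ : ∀ v, φ (fun l => Fr (v l)) = ((p ^ a : ℕ) : K) ^ ν * c * φ v) :
    φ ∈ Submodule.span K {ψ | IsDivisible Fr (p ^ a) ν ψ} := by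
  classical
  have hlift : ∀ s, ∃ y : Σ i, (F i →+* L), (⟨y.1, jK.comp y.2⟩ : Σ i, (F i →+* K)) = x s := by
    intro s
    obtain ⟨φ', hφ'⟩ := exists_factor j (h (x s).1) jK (x s).2
    exact ⟨⟨(x s).1, φ'⟩, by rw [hφ']⟩
  choose y hy using hlift
  have hb' : ∀ s, Fr (b s) = jK (val π (y s)) • b s := by
    intro s
    rw [hb, ← hy]
    rfl
  rw [expand b φ]
  refine Submodule.sum_mem _ fun I _ => ?_
  by_cases hI : φ (fun l => b (I l)) = 0
  · rw [hI, zero_smul]
    exact Submodule.zero_mem _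
  apply Submodule.smul_mem
  apply Submodule.subset_span
  have h1 := hφ (fun l => b (I l))
  simp only [hb'] at h1
  rw [MultilinearMap.map_smul_univ, smul_eq_mul] at h1
  have h2 := mul_right_cancel₀ hI h1
  rw [← map_prod] at h2
  have hq : ((p : L) ^ a) ≠ 0 := pow_ne_zero a (Nat.cast_ne_zero.2 (Fact.out : p.Prime).ne_zero)
  obtain ⟨c', hc'⟩ : ∃ c', c' = (∏ l, val π (y (I l))) / ((p : L) ^ a) ^ ν := ⟨_, rfl⟩
  have hprod : ∏ l, val π (y (I l)) = ((p : L) ^ a) ^ ν * c' := by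
    rw [hc']
    field_simp
  have hcc : jK c' = c := by
    rw [hprod, map_mul, map_pow, map_pow, map_natCast] at h2
    push_cast at h2
    have h3 : ((p : K) ^ a) ^ ν ≠ 0 := pow_ne_zero ν
      (pow_ne_zero a (Nat.cast_ne_zero.2 (Fact.out : p.Prime).ne_zero))
    exact mul_left_cancel₀ h3 h2
  have hint : IsIntegral ℤ c' := by
    have h3 : IsIntegral ℤ (jK.toIntAlgHom c') := by
      change IsIntegral ℤ (jK c')
      rw [hcc]
      exact hc
    exact (isIntegral_algHom_iff jK.toIntAlgHom jK.injective).1 h3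
  obtain ⟨e, he⟩ := pairs_of_trans ha hw hord jp htrans (fun l => y (I l)) ν c' hint hprod
  refine mono_divisible b Fr (fun s => jK (val π (y s))) hb' (p ^ a) ν I e fun l => ?_
  rw [← map_mul, he l, val_bar hw]
  push_cast
  rw [map_pow, map_natCast]

end

section

variable {p : ℕ} [Fact p.Prime] {a : ℕ} (ha : 0 < a) {ι : Type*} [Fintype ι]
    {F : ι → Type*} [∀ i, Field (F i)] [∀ i, NumberField (F i)] [∀ i, IsCMField (F i)]
    {π : ∀ i, F i} (hw : ∀ i, π i * IsCMField.complexConj (F i) (π i) = (p : F i) ^ a)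
    (hord : ∀ i, IsOrdinary p a (π i))
    {L : Type*} [Field L] [NumberField L] [IsGalois ℚ L] (j : L →+* ℂ)
    (jp : L →+* PadicAlgCl p)

include ha hw hord j in
theorem trans_of_flipped (hflip : IndividuallyFlipped F) :
    ∀ H : Finset (Σ i, (F i →+* L)), IsHalf bar H →
      ∃ g : L ≃ₐ[ℚ] L, ∀ x ∈ H, ‖jp (val π (g • x))‖ = 1 := by
  classical
  intro H hH
  obtain ⟨g, hg1, hg2⟩ := exists_flips (G := L ≃ₐ[ℚ] L) (X := Σ i, (F i →+* L)) bar_bar
    (fun g x => rfl) (flips_gal j hflip) hH (H.filter (fun x => ‖jp (val π x)‖ ≠ 1))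
    (Finset.filter_subset _ _)
  refine ⟨g, fun x hx => ?_⟩
  by_cases h1 : ‖jp (val π x)‖ = 1
  · rw [hg2 x (fun h3 => (Finset.mem_filter.1 h3).2 h1)
      (fun h3 => ((hH _).1 hx) (Finset.mem_filter.1 h3).1)]
    exact h1
  · rw [hg1 x (Finset.mem_filter.2 ⟨hx, h1⟩)]
    have h2 := (weights ha hw hord jp x).1
    rw [if_neg h1] at h2
    by_contra h3
    rw [if_neg h3] at h2
    exact absurd h2 (by norm_num)

end

end

end Pool.Agent.H204R3.GT
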