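import Mathlib
import Pool.Agent.H204R3.GT.Degree
import Pool.Agent.H204R3.GP.Neat

/-!
# Ordinary Weil numbers with unit root product of maximal degree have no multiplicative relations
-/

set_option linter.unusedSectionVars false
set_option linter.unusedVariables false

namespace Pool.Agent.H204R3.GT

open NumberField Module Equiv Pool.Agent.H204R3.CM Pool.Agent.H204R3.SP Pool.Agent.H204R3.GP
  Pool.Agent.H925R2

noncomputable section

variable {p : ℕ} [Fact p.Prime] {a : ℕ} (ha : 0 < a) {ι : Type*} [Fintype ι]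
    {F : ι → Type*} [∀ i, Field (F i)] [∀ i, NumberField (F i)] [∀ i, IsCMField (F i)]
    {π : ∀ i, F i} (hw : ∀ i, π i * IsCMField.complexConj (F i) (π i) = (p : F i) ^ a)
    (hord : ∀ i, IsOrdinary p a (π i))
    {L : Type*} [Field L] [NumberField L] [IsGalois ℚ L] (jp : L →+* PadicAlgCl p)

include ha hw hord in
theorem neat_of_trans
    (htrans : ∀ H : Finset (Σ i, (F i →+* L)), IsHalf bar H →
      ∃ g : L ≃ₐ[ℚ] L, ∀ x ∈ H, ‖jp (val π (g • x))‖ = 1) : Neat p a π L := by
  classical
  unfold Neat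
  intro m M hM I hprod y
  have h0 := norm_q_pos p a
  have hlt := norm_q_lt p ha
  set Q : ℝ := ‖(p : PadicAlgCl p) ^ a‖ with hQ
  let w : (Σ i, (F i →+* L)) → ℕ := fun x => if ‖jp (val π x)‖ = 1 then 0 else 1
  have hwQ : ∀ x : Σ i, (F i →+* L), ‖jp (val π x)‖ = Q ^ w x := fun x =>
    (weights ha hw hord jp x).2
  have hww : ∀ x : Σ i, (F i →+* L), w x + w (bar x) = 1 := fun x =>
    (weights ha hw hord jp x).1
  have hsum : ∀ g : L ≃ₐ[ℚ] L, m ≤ ∑ k, w (g • I k) := by
    intro g
    have h1 := congrArg (fun z => ‖jp (g z)‖) hprod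
    simp only [map_prod, map_pow, map_natCast, norm_prod, norm_pow] at h1
    have h2 : ∀ k, jp (g (val π (I k))) = jp (val π (g • I k)) := fun k => rfl
    simp only [h2, hwQ] at h1
    have h3 : ∏ k, (Q ^ w (g • I k)) ^ M = Q ^ ((∑ k, w (g • I k)) * M) := by
      rw [Finset.prod_pow, Finset.prod_pow_eq_pow_sum, ← pow_mul]
    have h4 : Q = ‖(p : PadicAlgCl p)‖ ^ a := by rw [hQ, norm_pow]
    rw [h3, ← h4] at h1
    have h5 := pow_right_injective₀ h0 hlt.ne h1
    exact (Nat.eq_of_mul_eq_mul_right hM h5).ge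
  obtain ⟨e, he⟩ := GH.exists_pairs (G := L ≃ₐ[ℚ] L) bar_bar bar_ne (fun g x => rfl) w hww
    (fun H hH => by
      obtain ⟨g, hg⟩ := htrans H hH
      exact ⟨g, fun x hx => if_pos (hg x hx)⟩) I m hsum
  have hbij : Function.Bijective e := (Finite.injective_iff_bijective).1 e.injective
  let E := Equiv.ofBijective e hbij
  have hcount : ∀ y : Σ i, (F i →+* L), (Finset.univ.filter (fun l => I l = y)).card =
      ∑ s, ((if I (e (s, 0)) = y then 1 else 0) + (if I (e (s, 0)) = bar y then 1 else 0)) := by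
    intro y
    rw [Finset.card_filter, ← Equiv.sum_comp E, Fintype.sum_prod_type]
    refine Finset.sum_congr rfl fun s _ => ?_
    rw [Fin.sum_univ_two]
    have h1 : E (s, 0) = e (s, 0) := rfl
    have h2 : E (s, 1) = e (s, 1) := rfl
    rw [h1, h2, he s]
    have h3 : (bar (I (e (s, 0))) = y) ↔ (I (e (s, 0)) = bar y) := by
      constructor
      · intro h
        rw [← h, bar_bar]
      · intro h
        rw [h, bar_bar]
    simp only [h3]
  have h1 := hcount y
  have h2 := hcount (bar y)
  have h3 : (Finset.univ.filter (fun l => I l = y)).card =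
      (Finset.univ.filter (fun l => I l = bar y)).card := by
    rw [h1, h2]
    refine Finset.sum_congr rfl fun s _ => ?_
    rw [bar_bar, add_comm]
  convert h3

end

end Pool.Agent.H204R3.GT
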